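import Pool.Agent.H50.Rdb.Count3

namespace Pool.Agent.H78.K4.Old.ThirdOrderCount

open Pool.Agent.H81.RDE

/-- **The third order part of the conjecture.** Among the 225 special cases with `k = 3`, exactly 135
are ESB and exactly 90 are not (they have unbounded solutions for some parameters). -/
theorem result :
    Nat.card {S : SpecialCase 3 // Admissible S ∧ ESB S} = 135 ∧
      Nat.card {S : SpecialCase 3 // Admissible S ∧ ¬ ESB S} = 90 :=
  Pool.Agent.H50.Rdb.count3

end Pool.Agent.H78.K4.Old.ThirdOrderCount
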