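import Pool.Agent.H81.RDE.Count

/-!
# MP_5c7d49_an: 417 special cases of order four and 90 of order three have unbounded solutions
-/

namespace Pool.Agent.H78.K4.Old.UnboundedCases

open Pool.Agent.H81.RDE

/-- At least `417` of the `961` special cases of order four and at least `90` of the `225` special
cases of order three are not ESB; the first part lists them (`rows`, `unbounded3`). -/
theorem result :
    ((∀ r ∈ rows, ∀ d ∈ r.2, ¬ ESB (caseOf 4 r.1 d)) ∧
      417 ≤ Nat.card {S : SpecialCase 4 // Admissible S ∧ ¬ ESB S} ∧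
      Nat.card {S : SpecialCase 4 // Admissible S ∧ ESB S} ≤ 544) ∧
    ((∀ p ∈ unbounded3, ¬ ESB (caseOf 3 p.1 p.2)) ∧
      90 ≤ Nat.card {S : SpecialCase 3 // Admissible S ∧ ¬ ESB S} ∧
      Nat.card {S : SpecialCase 3 // Admissible S ∧ ESB S} ≤ 135) := by
  refine ⟨⟨fun r hr d hd => ?_, counts.1⟩, ⟨not_esb3, counts.2⟩⟩
  exact not_esb4 (r.1, d) (List.mem_flatMap.2 ⟨r, hr, List.mem_map.2 ⟨d, hd, rfl⟩⟩)

end Pool.Agent.H78.K4.Old.UnboundedCases
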